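import Pool.Agent.W345.GK.Cl2

/-! Project GK: torsion points of the Carlitz module in a domain. -/

set_option autoImplicit false

open Polynomial Finset

namespace Pool.Agent.W45.GK

open Pool.Agent.W345.GK

section
variable {k : Type} [Field k] [Fintype k]

theorem car_sum (a : k[X]) (N : ℕ) (h : a.natDegree < N) :
    car a = ∑ i ∈ range N, C (C (a.coeff i)) * carP k i := by
  unfold car
  refine Finset.sum_subset ?_ ?_
  · intro i hi
    rw [Finset.mem_range] at hi ⊢
    omega
  · intro i _ hi
    rw [Finset.mem_range, not_lt] at hi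
    rw [coeff_eq_zero_of_natDegree_lt (by omega), C_0, C_0, zero_mul]

theorem car_add (a b : k[X]) : car (a + b) = car a + car b := by
  have h := natDegree_add_le a b
  have h1 := car_sum (a + b) (max a.natDegree b.natDegree + 1) (by omega)
  have h2 := car_sum a (max a.natDegree b.natDegree + 1) (by omega)
  have h3 := car_sum b (max a.natDegree b.natDegree + 1) (by omega)
  rw [h1, h2, h3, ← Finset.sum_add_distrib]
  refine Finset.sum_congr rfl fun i _ => ?_
  rw [coeff_add, C_add, C_add, add_mul]

theorem car_smul (u : k) (a : k[X]) : car (C u * a) = C (C u) * car a := by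
  have h := natDegree_C_mul_le u a
  have h1 := car_sum (C u * a) (a.natDegree + 1) (by omega)
  have h2 := car_sum a (a.natDegree + 1) (by omega)
  rw [h1, h2, Finset.mul_sum]
  refine Finset.sum_congr rfl fun i _ => ?_
  rw [coeff_C_mul, C_mul, C_mul, mul_assoc]

theorem carP_succ (i : ℕ) : carP k (i + 1) = C (X : k[X]) * carP k i +
    (carP k i) ^ Fintype.card k := by
  show (carT k).comp (carP k i) = _
  unfold carT
  rw [add_comp, mul_comp, C_comp, X_comp, X_pow_comp]

theorem car_X_mul (a : k[X]) : car (X * a) = C (X : k[X]) * car a + (car a) ^ Fintype.card k := by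
  obtain ⟨p, hp⟩ := CharP.exists k
  have := hp
  have : Fact p.Prime := ⟨CharP.char_is_prime k p⟩
  obtain ⟨n, -, hn⟩ := FiniteField.card k p
  have h0 : (X * a).natDegree ≤ a.natDegree + 1 := by
    have := natDegree_mul_le (p := (X : k[X])) (q := a)
    rw [natDegree_X] at this
    omega
  have h1 := car_sum (X * a) (a.natDegree + 2) (by omega)
  have h2 := car_sum a (a.natDegree + 1) (by omega)
  rw [h1, Finset.sum_range_succ', coeff_X_mul_zero, C_0, C_0, zero_mul, add_zero, h2,
    Finset.mul_sum, hn, sum_pow_char_pow, ← Finset.sum_add_distrib]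
  refine Finset.sum_congr rfl fun i _ => ?_
  rw [coeff_X_mul, carP_succ, mul_pow, ← hn, ← C_pow, ← C_pow, FiniteField.pow_card]
  ring

theorem car_one : car (1 : k[X]) = X := by
  have h1 := car_sum (1 : k[X]) 1 (by rw [natDegree_one]; exact zero_lt_one)
  rw [h1, Finset.sum_range_one, coeff_one_zero, C_1, C_1, one_mul]
  rfl

theorem pol_degree {N : ℕ} (c : Fin N → k) : (pol c).degree < N := by
  unfold pol
  exact degree_sum_fin_lt c

theorem pol_coeff {N : ℕ} (c : Fin N → k) (j : Fin N) : (pol c).coeff (j : ℕ) = c j := by
  unfold pol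
  rw [finsetSum_coeff, Finset.sum_eq_single j]
  · rw [coeff_C_mul, coeff_X_pow, if_pos rfl, mul_one]
  · intro i _ hij
    rw [coeff_C_mul, coeff_X_pow, if_neg, mul_zero]
    intro h
    exact hij (Fin.ext h.symm)
  · intro h
    exact absurd (Finset.mem_univ j) h

end

theorem cya : S_C1 → S_CYA := by
  intro hC1 k _ _ P S _ _ _ y hPm hPi _ hy hyP
  obtain ⟨e1, -, -, e4, e5⟩ := hC1 k
  have hadd : ∀ a b : k[X], aeval y (car (a + b)) = aeval y (car a) + aeval y (car b) := by
    intro a b
    rw [car_add, map_add]
  have hsm : ∀ (u : k) (a : k[X]), aeval y (car (C u * a)) =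
      algebraMap k[X] S (C u) * aeval y (car a) := by
    intro u a
    rw [car_smul, map_mul, aeval_C]
  have hX : ∀ a : k[X], aeval y (car (X * a)) =
      algebraMap k[X] S X * aeval y (car a) + (aeval y (car a)) ^ Fintype.card k := by
    intro a
    rw [car_X_mul, map_add, map_mul, map_pow, aeval_C]
  have hmul : ∀ a b : k[X], aeval y (car (a * b)) = aeval (aeval y (car b)) (car a) :=
    e5 S (fun a => aeval y (car a)) hadd hsm hX
  have h0 : ∀ a : k[X], aeval (0 : S) (car a) = 0 := by
    intro a
    rw [e1 a, map_sum]
    refine Finset.sum_eq_zero fun i _ => ?_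
    rw [map_mul, map_pow, aeval_X, zero_pow (pow_pos Fintype.card_pos i).ne', mul_zero]
  have hz : ∀ a : k[X], aeval y (car a) = 0 ↔ P ∣ a := by
    intro a
    constructor
    · intro ha
      by_contra hnd
      obtain ⟨u, v, huv⟩ := (hPi.coprime_iff_not_dvd.mpr hnd)
      have h1 : aeval y (car (u * P + v * a)) = 0 := by
        rw [hadd, hmul, hmul, hyP, ha, h0, h0, add_zero]
      rw [huv, car_one, aeval_X] at h1
      exact hy h1
    · rintro ⟨b, rfl⟩
      rw [mul_comm, hmul, hyP, h0]
  have hroot : ∀ a : k[X], aeval (aeval y (car a)) (car P) = 0 := by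
    intro a
    rw [← hmul]
    exact (hz _).mpr ⟨a, rfl⟩
  refine ⟨hadd, hsm, hX, hz, ?_, hmul⟩
  intro z
  constructor
  · intro hzr
    classical
    set d := P.natDegree with hd
    set F : S[X] := (car P).map (algebraMap k[X] S) with hF
    have hcoeff : F.coeff (Fintype.card k ^ d) = 1 := by
      rw [hF, coeff_map]
      have h1 : (car P).coeff (Fintype.card k ^ d) = 1 := e4 P hPm
      rw [h1, map_one]
    have hF0 : F ≠ 0 := by
      intro h
      rw [h, coeff_zero] at hcoeff
      exact zero_ne_one hcoeff
    have hFd : F.natDegree ≤ Fintype.card k ^ d := by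
      refine natDegree_map_le.trans ?_
      rw [e1 P]
      refine natDegree_sum_le_of_forall_le _ _ fun i hi => ?_
      refine (natDegree_C_mul_X_pow_le _ _).trans ?_
      rw [Finset.mem_range] at hi
      exact Nat.pow_le_pow_right Fintype.card_pos (by omega)
    have hFr : ∀ w : S, aeval w (car P) = 0 → w ∈ F.roots.toFinset := by
      intro w hw
      rw [Multiset.mem_toFinset, mem_roots hF0, IsRoot, hF, eval_map]
      exact hw
    have hinj : Function.Injective fun c : Fin d → k => aeval y (car (pol c)) := by
      intro c c' hcc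
      have hcc' : aeval y (car (pol c)) = aeval y (car (pol c')) := hcc
      have h1 : aeval y (car (pol c - pol c')) = 0 := by
        have h2 := hadd (pol c - pol c') (pol c')
        rw [sub_add_cancel, hcc'] at h2
        exact left_eq_add.mp (h2.trans (add_comm _ _))
      have h3 : P ∣ pol c - pol c' := (hz _).mp h1
      have h4 : pol c - pol c' = 0 := by
        by_contra hne
        have h5 : P.degree ≤ (pol c - pol c').degree := degree_le_of_dvd h3 hne
        have h6 : (pol c - pol c').degree < d :=
          (degree_sub_le _ _).trans_lt (max_lt (pol_degree c) (pol_degree c'))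
        rw [degree_eq_natDegree hPm.ne_zero] at h5
        exact absurd (h5.trans_lt h6) (lt_irrefl _)
      ext j
      rw [← pol_coeff c j, ← pol_coeff c' j, sub_eq_zero.mp h4]
    have hT : (Finset.univ.image fun c : Fin d → k => aeval y (car (pol c))) =
        F.roots.toFinset := by
      refine Finset.eq_of_subset_of_card_le ?_ ?_
      · intro w hw
        rw [Finset.mem_image] at hw
        obtain ⟨c, -, rfl⟩ := hw
        exact hFr _ (hroot _)
      · rw [Finset.card_image_of_injective _ hinj, Finset.card_univ, Fintype.card_fun,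
          Fintype.card_fin]
        exact (Multiset.toFinset_card_le _).trans ((card_roots' F).trans hFd)
    have hzT := hFr z hzr
    rw [← hT, Finset.mem_image] at hzT
    obtain ⟨c, -, hc⟩ := hzT
    exact ⟨pol c, hc.symm⟩
  · rintro ⟨a, rfl⟩
    exact hroot a

end Pool.Agent.W45.GK
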